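import Pool.Agent.V8H67.IW.Loc
import Pool.Agent.V8H67.IW.Closed

/-!
# The global count and the correction at the root
-/

namespace Pool.Agent.V8H67.IW

open SimpleGraph Pool.Agent.Helper6W

variable {V : Type} [Fintype V] [DecidableEq V]

lemma fiber_le {r : V} {p : V → V} (f : V → ℕ) (W : Finset V) (hcl : ∀ w ∈ W, CH r p w ⊆ W) :
    ∑ w ∈ W, ∑ c ∈ CH r p w, f c ≤ ∑ c ∈ W, f c := by
  rw [← Finset.sum_biUnion]
  · apply Finset.sum_le_sum_of_subset
    intro c hc
    rw [Finset.mem_biUnion] at hc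
    obtain ⟨w, hw, hc⟩ := hc
    exact hcl w hw hc
  · intro a _ b _ hab
    rw [Function.onFun, Finset.disjoint_left]
    intro c hca hcb
    exact hab ((mem_CH.mp hca).2.symm.trans (mem_CH.mp hcb).2)

variable (G : SimpleGraph V) [DecidableRel G.Adj] {r : V} {p : V → V} {d : V → ℕ} {s : V → ℕ}

/-- the budget of a vertex -/
def bud (G : SimpleGraph V) [DecidableRel G.Adj] (r : V) (p : V → V) (d : V → ℕ) (v : V) : ℕ :=
  4 * (DN G d v).card + (CH r p v).card + G.degree v

lemma sum_W (h : IsTree G r p d)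
    (hN2 : ∀ x y, G.Adj x y → d x < d y → (CH r p x).Nonempty)
    (hg : ∀ v, Good G r p d s v) (W : Finset V) (hr : r ∉ W) (hcl : ∀ w ∈ W, CH r p w ⊆ W) :
    ∑ w ∈ W, (4 * s w + 1) ≤ ∑ w ∈ W, bud G r p d w := by
  have h1 : ∑ w ∈ W, (XX G r p d s w + YY G r p d s w + 4 * s w + 1) ≤
      ∑ w ∈ W, (bud G r p d w +
        ∑ c ∈ CH r p w, (YY G r p d s c + ∑ v ∈ CH r p c, XX G r p d s v)) := by
    refine Finset.sum_le_sum ?_
    intro w hw
    exact local_ineq G h hN2 hg (fun h => hr (h ▸ hw))
  have h0 : ∑ w ∈ W, (bud G r p d w +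
        ∑ c ∈ CH r p w, (YY G r p d s c + ∑ v ∈ CH r p c, XX G r p d s v)) =
      ∑ w ∈ W, bud G r p d w +
        ∑ w ∈ W, ∑ c ∈ CH r p w, (YY G r p d s c + ∑ v ∈ CH r p c, XX G r p d s v) :=
    Finset.sum_add_distrib
  rw [h0] at h1
  have h2 := fiber_le (r := r) (p := p)
    (fun c => YY G r p d s c + ∑ v ∈ CH r p c, XX G r p d s v) W hcl
  have h3 := fiber_le (r := r) (p := p) (fun c => XX G r p d s c) W hcl
  have h4 : ∑ c ∈ W, (YY G r p d s c + ∑ v ∈ CH r p c, XX G r p d s v) =
      ∑ c ∈ W, YY G r p d s c + ∑ c ∈ W, ∑ v ∈ CH r p c, XX G r p d s v :=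
    Finset.sum_add_distrib
  have h5 : ∑ w ∈ W, (XX G r p d s w + YY G r p d s w + 4 * s w + 1) =
      ∑ w ∈ W, XX G r p d s w + ∑ w ∈ W, YY G r p d s w + ∑ w ∈ W, (4 * s w + 1) := by
    rw [← Finset.sum_add_distrib, ← Finset.sum_add_distrib]
    refine Finset.sum_congr rfl ?_
    intro w _
    ring
  rw [h5] at h1
  have h2' : ∑ w ∈ W, ∑ c ∈ CH r p w, (YY G r p d s c + ∑ v ∈ CH r p c, XX G r p d s v) ≤
    ∑ c ∈ W, (YY G r p d s c + ∑ v ∈ CH r p c, XX G r p d s v) := h2
  have h3' : ∑ w ∈ W, ∑ c ∈ CH r p w, XX G r p d s c ≤ ∑ c ∈ W, XX G r p d s c := h3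
  omega

lemma sum_DN (hN1 : ∀ x y, G.Adj x y → d x ≠ d y) :
    ∑ v, (DN G d v).card = G.edgeFinset.card := by
  have h1 : ∀ v, (DN G d v).card = ∑ x, (if G.Adj v x ∧ d v < d x then 1 else 0) := by
    intro v
    unfold DN
    rw [Finset.card_filter]
  have h2 : ∀ v, G.degree v = ∑ x, (if G.Adj v x ∧ d v < d x then 1 else 0) +
      ∑ x, (if G.Adj v x ∧ d x < d v then 1 else 0) := by
    intro v
    rw [← Finset.sum_add_distrib, ← G.card_neighborFinset_eq_degree]
    have h3 : G.neighborFinset v = Finset.univ.filter (fun x => G.Adj v x) := by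
      ext x
      simp
    rw [h3, Finset.card_filter]
    refine Finset.sum_congr rfl ?_
    intro x _
    by_cases hx : G.Adj v x
    · have := hN1 v x hx
      rcases lt_or_gt_of_ne this with h4 | h4
      · rw [if_pos hx, if_pos ⟨hx, h4⟩, if_neg (by omega)]
      · rw [if_pos hx, if_neg (by omega), if_pos ⟨hx, h4⟩]
    · rw [if_neg hx, if_neg (fun h => hx h.1), if_neg (fun h => hx h.1)]
  have h3 : ∑ v, ∑ x, (if G.Adj v x ∧ d x < d v then 1 else 0 : ℕ) =
      ∑ v, ∑ x, (if G.Adj v x ∧ d v < d x then 1 else 0) := by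
    rw [Finset.sum_comm]
    refine Finset.sum_congr rfl (fun v _ => Finset.sum_congr rfl (fun x _ => ?_))
    exact if_congr (and_congr (G.adj_comm x v) Iff.rfl) rfl rfl
  have h4 := G.sum_degrees_eq_twice_card_edges
  rw [Finset.sum_congr rfl (fun v _ => h2 v), Finset.sum_add_distrib, h3] at h4
  rw [Finset.sum_congr rfl (fun v _ => h1 v)]
  omega

omit [DecidableEq V] in
lemma sum_CH [DecidableEq V] (r : V) (p : V → V) :
    ∑ v, (CH r p v).card + 1 = Fintype.card V := by
  have h1 : ∑ v, (CH r p v).card = (Finset.univ.filter (fun w => w ≠ r)).card := by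
    rw [Finset.card_eq_sum_card_fiberwise (f := p) (s := Finset.univ.filter (fun w => w ≠ r))
      (t := Finset.univ) (fun _ _ => Finset.mem_univ _)]
    refine Finset.sum_congr rfl ?_
    intro v _
    unfold CH
    rw [Finset.filter_filter]
  rw [h1, Finset.filter_ne', Finset.card_erase_of_mem (Finset.mem_univ r), Finset.card_univ]
  have : 0 < Fintype.card V := Fintype.card_pos_iff.mpr ⟨r⟩
  omega

lemma total_bud (hN1 : ∀ x y, G.Adj x y → d x ≠ d y) :
    ∑ v, bud G r p d v + 1 = 6 * G.edgeFinset.card + Fintype.card V := by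
  unfold bud
  rw [Finset.sum_add_distrib, Finset.sum_add_distrib, ← Finset.mul_sum, sum_DN G hN1,
    G.sum_degrees_eq_twice_card_edges]
  have := sum_CH r p
  omega

lemma finish (h : IsTree G r p d) (hN1 : ∀ x y, G.Adj x y → d x ≠ d y)
    {q : V} (hq : q ∈ CH r p r) (hqn : CH r p q ≠ ∅) (s1 : V → ℕ)
    (ha : ∀ x y, G.Adj x y → d x < d y → x ≠ r → x ≠ q → DD G r p s1 x ≠ DD G r p s1 y)
    (hb : G.degree r + 2 * ∑ c ∈ (CH r p r).erase q, s1 c ≠
      G.degree q + 2 * ∑ c ∈ CH r p q, s1 c)
    (hc : ∀ u, u ≠ r → u ≠ q → CH r p u ≠ ∅ → 0 < s1 u)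
    (hd : ∑ v ∈ (Finset.univ.erase r).erase q, (4 * s1 v + 1) ≤
      ∑ v ∈ (Finset.univ.erase r).erase q, bud G r p d v +
        (G.degree r + (CH r p r).card + 2)) :
    ∃ w : G.Walk r r, Irregularising G w ∧ w.length ≤ 3 * G.edgeFinset.card := by
  obtain ⟨hqr, hpq⟩ := mem_CH.mp hq
  obtain ⟨hadj, hdq⟩ := h.2 q hqr
  rw [hpq] at hadj hdq
  rw [h.1] at hdq
  have hpqq : p q ≠ q := by rw [hpq]; exact hqr.symm
  set bq := G.degree q + 2 * ∑ w ∈ CH r p q, s1 w with hbq
  set br := G.degree r + 2 * ∑ w ∈ (CH r p r).erase q, s1 w with hbr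
  obtain ⟨j, hj1, hj2, hj3⟩ := pick ((DN G d q).image (fun x => (DD G r p s1 x - bq) / 2) ∪
    ((G.neighborFinset r).erase q).image (fun x => (DD G r p s1 x - br) / 2))
  have hqn' : q ∈ G.neighborFinset r := by simpa using hadj.symm
  have hcard : ((DN G d q).image (fun x => (DD G r p s1 x - bq) / 2) ∪
    ((G.neighborFinset r).erase q).image (fun x => (DD G r p s1 x - br) / 2)).card ≤
      (DN G d q).card + (G.degree r - 1) := by
    refine (Finset.card_union_le _ _).trans ?_
    have e1 := Finset.card_image_le (s := DN G d q) (f := fun x => (DD G r p s1 x - bq) / 2)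
    have e2 := Finset.card_image_le (s := (G.neighborFinset r).erase q)
      (f := fun x => (DD G r p s1 x - br) / 2)
    rw [Finset.card_erase_of_mem hqn', G.card_neighborFinset_eq_degree] at e2
    omega
  have hdegr : 0 < G.degree r := by
    rw [← G.card_neighborFinset_eq_degree]
    exact Finset.card_pos.mpr ⟨q, hqn'⟩
  set s2 := Function.update s1 q j with hs2
  have hDq : DD G r p s2 q = bq + 2 * j := DD_update_self G r p s1 j hqr hpqq
  have hDr : DD G r p s2 r = br + 2 * j := DD_update_root G r p s1 j hqr hpq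
  have hDo : ∀ v, v ≠ q → v ≠ r → DD G r p s2 v = DD G r p s1 v := by
    intro v h1 h2
    exact DD_update_ne G r p s1 j h1 (by rw [hpq]; exact h2.symm)
  have hnotr : ∀ x y, d x < d y → y ≠ r := by
    rintro x y hxy rfl
    rw [h.1] at hxy
    omega
  have key : ∀ x y, G.Adj x y → d x < d y → DD G r p s2 x ≠ DD G r p s2 y := by
    intro x y hxy hlt
    have hyr := hnotr x y hlt
    by_cases hxr : x = r
    · subst hxr
      by_cases hyq : y = q
      · subst hyq
        rw [hDq, hDr]
        intro h1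
        exact hb (by omega)
      · rw [hDr, hDo y hyq hyr]
        intro h1
        apply hj3
        refine Finset.mem_union_right _ ?_
        rw [Finset.mem_image]
        refine ⟨y, Finset.mem_erase.mpr ⟨hyq, by simpa using hxy⟩, ?_⟩
        rw [← h1]
        omega
    · have hyq : y ≠ q := by
        rintro rfl
        have : d x = 0 := by omega
        exact hxr (eq_root h this)
      by_cases hxq : x = q
      · subst hxq
        rw [hDq, hDo y hyq hyr]
        intro h1
        apply hj3
        refine Finset.mem_union_left _ ?_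
        rw [Finset.mem_image]
        refine ⟨y, mem_DN.mpr ⟨hxy, hlt⟩, ?_⟩
        rw [← h1]
        omega
      · rw [hDo x hxq hxr, hDo y hyq hyr]
        exact ha x y hxy hlt hxr hxq
  have hcov : ∀ v, v ≠ r → 0 < s2 v → p v = r ∨ 0 < s2 (p v) := by
    intro v hv _
    by_cases h1 : p v = r
    · exact Or.inl h1
    · right
      by_cases h2 : p v = q
      · rw [h2, hs2, Function.update_self]
        omega
      · rw [hs2, Function.update_of_ne h2]
        apply hc _ h1 h2
        intro h3
        have : v ∈ CH r p (p v) := mem_CH.mpr ⟨hv, rfl⟩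
        rw [h3] at this
        simp at this
  obtain ⟨w, hw, hlen⟩ := closed_walk G h s2 hcov
  refine ⟨w, ?_, ?_⟩
  · intro u v huv
    rw [hw u, hw v]
    rcases lt_or_gt_of_ne (hN1 u v huv) with h1 | h1
    · exact key u v huv h1
    · exact (key v u huv.symm h1).symm
  · rw [hlen]
    have hqm : q ∈ Finset.univ.erase r := Finset.mem_erase.mpr ⟨hqr, Finset.mem_univ q⟩
    have e1 : ∑ x ∈ Finset.univ.erase r, (4 * s2 x + 1) =
        (4 * j + 1) + ∑ x ∈ (Finset.univ.erase r).erase q, (4 * s1 x + 1) := by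
      rw [← Finset.add_sum_erase _ _ hqm, hs2, Function.update_self]
      congr 1
      refine Finset.sum_congr rfl ?_
      intro x hx
      rw [Function.update_of_ne (Finset.ne_of_mem_erase hx)]
    have e2 : ∑ x ∈ Finset.univ.erase r, bud G r p d x =
        bud G r p d q + ∑ x ∈ (Finset.univ.erase r).erase q, bud G r p d x :=
      (Finset.add_sum_erase _ _ hqm).symm
    have e3 : ∑ x, bud G r p d x = bud G r p d r + ∑ x ∈ Finset.univ.erase r, bud G r p d x :=
      (Finset.add_sum_erase _ _ (Finset.mem_univ r)).symm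
    have e4 := total_bud G (r := r) (p := p) hN1
    have e5 : ∑ x ∈ Finset.univ.erase r, (4 * s2 x + 1) =
        4 * ∑ x ∈ Finset.univ.erase r, s2 x + (Fintype.card V - 1) := by
      rw [Finset.sum_add_distrib, ← Finset.mul_sum, ← Finset.card_eq_sum_ones,
        Finset.card_erase_of_mem (Finset.mem_univ r), Finset.card_univ]
    have e6 : (DN G d r).card = G.degree r := by
      rw [← G.card_neighborFinset_eq_degree]
      congr 1
      ext x
      rw [mem_DN, mem_neighborFinset]
      constructor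
      · exact fun h => h.1
      · intro h1
        refine ⟨h1, ?_⟩
        rw [h.1]
        by_contra h2
        have : x = r := eq_root h (by omega)
        exact h1.ne this.symm
    have e7 : bud G r p d r = 5 * G.degree r + (CH r p r).card := by
      unfold bud
      rw [e6]
      ring
    have e8 : 4 * (DN G d q).card + 3 ≤ bud G r p d q := by
      unfold bud
      have f1 := card_DN_lt G h hqr
      have f2 := card_CH G h q
      have f3 : 1 ≤ (CH r p q).card := by
        rw [Nat.one_le_iff_ne_zero, Ne, Finset.card_eq_zero]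
        exact hqn
      omega
    have hV : 0 < Fintype.card V := Fintype.card_pos_iff.mpr ⟨r⟩
    omega

end Pool.Agent.V8H67.IW
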