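import Pool.Agent.V8H67.IW.Tree

/-!
# The greedy values
-/

namespace Pool.Agent.V8H67.IW

open SimpleGraph Pool.Agent.Helper6W

variable {V : Type} [Fintype V] [DecidableEq V]

/-- The deeper neighbours of `v`. -/
def DN (G : SimpleGraph V) [DecidableRel G.Adj] (d : V → ℕ) (v : V) : Finset V :=
  Finset.univ.filter fun x => G.Adj v x ∧ d v < d x

lemma mem_DN {G : SimpleGraph V} [DecidableRel G.Adj] {d : V → ℕ} {v x : V} :
    x ∈ DN G d v ↔ G.Adj v x ∧ d v < d x := by
  unfold DN
  simp

/-- The value `s v` is the greedy choice. -/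
def Good (G : SimpleGraph V) [DecidableRel G.Adj] (r : V) (p : V → V) (d : V → ℕ) (s : V → ℕ)
    (v : V) : Prop :=
  ((v = r ∨ CH r p v = ∅) → s v = 0) ∧
  (v ≠ r → CH r p v ≠ ∅ → 1 ≤ s v ∧
    (∀ x, G.Adj v x → d v < d x → DD G r p s x ≠ DD G r p s v) ∧
    (∀ j, 1 ≤ j → j < s v → ∃ x, G.Adj v x ∧ d v < d x ∧
      DD G r p s x + 2 * s v = DD G r p s v + 2 * j))

variable (G : SimpleGraph V) [DecidableRel G.Adj] {r : V} {p : V → V} {d : V → ℕ}

lemma DD_congr (h : IsTree G r p d) {s s' : V → ℕ} {v : V}
    (hs : ∀ x, d v ≤ d x → s x = s' x) : DD G r p s v = DD G r p s' v := by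
  unfold DD
  rw [hs v le_rfl]
  congr 3
  refine Finset.sum_congr rfl ?_
  intro w hw
  rw [Finset.mem_filter] at hw
  have h1 := (h.2 w hw.2.1).2
  rw [hw.2.2] at h1
  exact hs w (by omega)

lemma exists_greedy (h : IsTree G r p d) : ∃ s : V → ℕ, ∀ v, Good G r p d s v := by
  classical
  have main : ∀ k : ℕ, ∃ s : V → ℕ, ∀ v, Fintype.card V ≤ d v + k → Good G r p d s v := by
    intro k
    induction k with
    | zero =>
      refine ⟨fun _ => 0, fun v hv => ?_⟩
      have := depth_lt h v
      omega
    | succ k ih =>
      obtain ⟨s, hs⟩ := ih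
      have hchoose : ∀ v, ∃ j, 1 ≤ j ∧ (∀ x, G.Adj v x → d v < d x → DD G r p s x ≠
          G.degree v + 2 * (j + ∑ w ∈ CH r p v, s w)) := by
        intro v
        obtain ⟨j, h1, _, h3⟩ := pick ((DN G d v).image
          (fun x => (DD G r p s x - (G.degree v + 2 * ∑ w ∈ CH r p v, s w)) / 2))
        refine ⟨j, h1, ?_⟩
        intro x hx hd heq
        apply h3
        rw [Finset.mem_image]
        refine ⟨x, mem_DN.mpr ⟨hx, hd⟩, ?_⟩
        rw [heq]
        omega
      set g : V → ℕ := fun v => if v = r ∨ CH r p v = ∅ then 0 else Nat.find (hchoose v) with hg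
      set s' : V → ℕ := fun v => if d v + (k + 1) = Fintype.card V then g v else s v with hs'
      have hagree : ∀ v, Fintype.card V ≤ d v + k → s' v = s v := by
        intro v hv
        show (if _ then _ else _) = _
        rw [if_neg (by omega)]
      have hDD : ∀ v, Fintype.card V ≤ d v + k → DD G r p s' v = DD G r p s v := by
        intro v hv
        exact DD_congr G h (fun x hx => hagree x (by omega))
      refine ⟨s', ?_⟩
      intro v hv
      by_cases hlev : d v + (k + 1) = Fintype.card V
      · have hsv : s' v = g v := by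
          show (if _ then _ else _) = _
          rw [if_pos hlev]
        have hsum : ∑ w ∈ CH r p v, s' w = ∑ w ∈ CH r p v, s w := by
          refine Finset.sum_congr rfl ?_
          intro w hw
          rw [mem_CH] at hw
          have h1 := (h.2 w hw.1).2
          rw [hw.2] at h1
          exact hagree w (by omega)
        refine ⟨?_, ?_⟩
        · intro h1
          rw [hsv]
          show (if _ then _ else _) = 0
          rw [if_pos h1]
        · intro hvr hch
          have hgv : g v = Nat.find (hchoose v) := by
            show (if _ then _ else _) = _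
            rw [if_neg]
            rintro (h1 | h1)
            · exact hvr h1
            · exact hch h1
          have hDv : ∀ j, DD G r p s' v + 2 * j =
              G.degree v + 2 * (s' v + ∑ w ∈ CH r p v, s w) + 2 * j := by
            intro j
            unfold DD
            rw [if_neg hvr]
            unfold CH at hsum
            rw [hsum]
            rfl
          have hsp := Nat.find_spec (hchoose v)
          refine ⟨?_, ?_, ?_⟩
          · rw [hsv, hgv]; exact hsp.1
          · intro x hx hd heq
            have h2 := hDv 0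
            rw [hDD x (by omega)] at heq
            apply hsp.2 x hx hd
            rw [heq]
            rw [hsv, hgv] at h2
            omega
          · intro j h1 h2
            rw [hsv, hgv] at h2
            have h3 := Nat.find_min (hchoose v) h2
            push Not at h3
            obtain ⟨x, hx, hd, heq⟩ := h3 h1
            refine ⟨x, hx, hd, ?_⟩
            rw [hDD x (by omega), heq, hDv j]
            ring
      · have hv' : Fintype.card V ≤ d v + k := by omega
        have h1 := hs v hv'
        refine ⟨?_, ?_⟩
        · intro h2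
          rw [hagree v hv']
          exact h1.1 h2
        · intro h2 h3
          obtain ⟨h4, h5, h6⟩ := h1.2 h2 h3
          rw [hagree v hv', hDD v hv']
          refine ⟨h4, ?_, ?_⟩
          · intro x hx hd
            rw [hDD x (by omega)]
            exact h5 x hx hd
          · intro j hj1 hj2
            obtain ⟨x, hx, hd, heq⟩ := h6 j hj1 hj2
            exact ⟨x, hx, hd, by rw [hDD x (by omega)]; exact heq⟩
  obtain ⟨s, hs⟩ := main (Fintype.card V)
  exact ⟨s, fun v => hs v (by omega)⟩

/-- The greedy value is at most one more than the number of the deeper neighbours, and in the case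
of equality every deeper neighbour blocks a smaller value. -/
lemma block {s : V → ℕ} {v : V} (hg : Good G r p d s v) (hvr : v ≠ r) (hch : CH r p v ≠ ∅) :
    s v ≤ (DN G d v).card + 1 ∧
    (s v = (DN G d v).card + 1 → ∀ x, G.Adj v x → d v < d x → ∃ j, 1 ≤ j ∧
      j ≤ (DN G d v).card ∧ DD G r p s x + 2 * s v = DD G r p s v + 2 * j) := by
  classical
  obtain ⟨h1, h2, h3⟩ := hg.2 hvr hch
  set B := (DN G d v).filter (fun x => ∃ j, 1 ≤ j ∧ j < s v ∧
    DD G r p s x + 2 * s v = DD G r p s v + 2 * j) with hB
  have hsub : Finset.Icc 1 (s v - 1) ⊆ B.image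
      (fun x => (DD G r p s x + 2 * s v - DD G r p s v) / 2) := by
    intro j hj
    rw [Finset.mem_Icc] at hj
    obtain ⟨x, hx, hd, heq⟩ := h3 j hj.1 (by omega)
    rw [Finset.mem_image]
    refine ⟨x, ?_, ?_⟩
    · rw [hB, Finset.mem_filter]
      exact ⟨mem_DN.mpr ⟨hx, hd⟩, j, hj.1, by omega, heq⟩
    · rw [heq]
      omega
  have hc1 := Finset.card_le_card hsub
  have hc2 : (B.image (fun x => (DD G r p s x + 2 * s v - DD G r p s v) / 2)).card ≤ B.card :=
    Finset.card_image_le
  have hc3 : B.card ≤ (DN G d v).card := Finset.card_filter_le _ _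
  rw [Nat.card_Icc] at hc1
  refine ⟨by omega, ?_⟩
  intro heq x hx hd
  have hBe : B = DN G d v := Finset.eq_of_subset_of_card_le (Finset.filter_subset _ _) (by omega)
  have hxB : x ∈ B := by
    rw [hBe]
    exact mem_DN.mpr ⟨hx, hd⟩
  rw [hB, Finset.mem_filter] at hxB
  obtain ⟨_, j, hj1, hj2, hj3⟩ := hxB
  exact ⟨j, hj1, by omega, hj3⟩

end Pool.Agent.V8H67.IW
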