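import Pool.Agent.V8H67.IW.Gr

/-!
# The local inequality
-/

namespace Pool.Agent.V8H67.IW

open SimpleGraph Pool.Agent.Helper6W

variable {V : Type} [Fintype V] [DecidableEq V]

/-- what `v` gives to its grandparent -/
def XX (G : SimpleGraph V) [DecidableRel G.Adj] (r : V) (p : V → V) (d : V → ℕ) (s : V → ℕ)
    (v : V) : ℕ :=
  if s v = 1 then 2 else
    if s v = 2 ∧ (CH r p (p v)).card = 1 ∧ G.degree (p v) = 3 ∧
      s (p v) = (DN G d (p v)).card + 1 then 1 else 0

/-- what `v` gives to its parent -/
def YY (G : SimpleGraph V) [DecidableRel G.Adj] (r : V) (p : V → V) (d : V → ℕ) (s : V → ℕ)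
    (v : V) : ℕ :=
  if CH r p v = ∅ then min (G.degree v - 1) 4 else
    if (∑ w ∈ CH r p v, s w) = 0 ∧ 4 ≤ G.degree v then 2 else
      if G.degree v = 3 ∧ (∑ w ∈ CH r p v, s w) = 2 ∧
        (((CH r p v).card = 1 ∧ s v ≠ (DN G d v).card + 1) ∨
          ((CH r p v).card = 2 ∧ ∃ c ∈ CH r p v, s c = 2)) then 1 else 0

variable (G : SimpleGraph V) [DecidableRel G.Adj] {r : V} {p : V → V} {d : V → ℕ} {s : V → ℕ}

lemma DD_eq {v : V} (hv : v ≠ r) :
    DD G r p s v = G.degree v + 2 * (s v + ∑ w ∈ CH r p v, s w) := by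
  unfold DD
  rw [if_neg hv]
  rfl

lemma CH_sub (h : IsTree G r p d) (v : V) : CH r p v ⊆ DN G d v := by
  intro c hc
  rw [mem_CH] at hc
  obtain ⟨h1, h2⟩ := h.2 c hc.1
  rw [hc.2] at h1 h2
  exact mem_DN.mpr ⟨h1.symm, by omega⟩

lemma card_CH (h : IsTree G r p d) (v : V) : (CH r p v).card ≤ (DN G d v).card :=
  Finset.card_le_card (CH_sub G h v)

lemma card_DN_lt (h : IsTree G r p d) {v : V} (hv : v ≠ r) :
    (DN G d v).card + 1 ≤ G.degree v := by
  obtain ⟨h1, h2⟩ := h.2 v hv
  have hsub : insert (p v) (DN G d v) ⊆ G.neighborFinset v := by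
    intro x hx
    rw [Finset.mem_insert] at hx
    rcases hx with rfl | hx
    · simpa using h1
    · simpa using (mem_DN.mp hx).1
  have hnot : p v ∉ DN G d v := by
    intro h3
    have := (mem_DN.mp h3).2
    omega
  have := Finset.card_le_card hsub
  rw [Finset.card_insert_of_notMem hnot, G.card_neighborFinset_eq_degree] at this
  exact this

section

variable (h : IsTree G r p d)
  (hN2 : ∀ x y, G.Adj x y → d x < d y → (CH r p x).Nonempty)
  (hg : ∀ v, Good G r p d s v)

include h hN2 hg

omit h hg in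
lemma DN_leaf {v : V} (hl : CH r p v = ∅) : DN G d v = ∅ := by
  rw [Finset.eq_empty_iff_forall_notMem]
  intro x hx
  obtain ⟨h1, h2⟩ := mem_DN.mp hx
  have := hN2 v x h1 h2
  rw [hl] at this
  exact Finset.not_nonempty_empty this

omit h hN2 in
lemma leaf_of_zero {v : V} (hv : v ≠ r) (h0 : s v = 0) : CH r p v = ∅ := by
  by_contra hne
  have := ((hg v).2 hv hne).1
  omega

omit h hN2 in
lemma s_leaf {v : V} (hl : CH r p v = ∅) : s v = 0 := (hg v).1 (Or.inr hl)

omit h hN2 hg in
lemma XX_le (v : V) : XX G r p d s v ≤ 2 := by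
  unfold XX
  split_ifs <;> omega

omit h hN2 hg in
lemma YY_leaf {v : V} (hl : CH r p v = ∅) : YY G r p d s v = min (G.degree v - 1) 4 := by
  unfold YY
  rw [if_pos hl]

omit h hN2 hg in
lemma YY_cases {v : V} (hl : CH r p v ≠ ∅) :
    YY G r p d s v = 0 ∨
    (YY G r p d s v = 2 ∧ (∑ w ∈ CH r p v, s w) = 0 ∧ 4 ≤ G.degree v) ∨
    (YY G r p d s v = 1 ∧ G.degree v = 3 ∧ (∑ w ∈ CH r p v, s w) = 2 ∧
        (((CH r p v).card = 1 ∧ s v ≠ (DN G d v).card + 1) ∨
          ((CH r p v).card = 2 ∧ ∃ c ∈ CH r p v, s c = 2))) := by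
  unfold YY
  rw [if_neg hl]
  by_cases h1 : (∑ w ∈ CH r p v, s w) = 0 ∧ 4 ≤ G.degree v
  · rw [if_pos h1]
    exact Or.inr (Or.inl ⟨rfl, h1⟩)
  · rw [if_neg h1]
    by_cases h2 : G.degree v = 3 ∧ (∑ w ∈ CH r p v, s w) = 2 ∧
        (((CH r p v).card = 1 ∧ s v ≠ (DN G d v).card + 1) ∨
          ((CH r p v).card = 2 ∧ ∃ c ∈ CH r p v, s c = 2))
    · rw [if_pos h2]
      exact Or.inr (Or.inr ⟨rfl, h2⟩)
    · rw [if_neg h2]
      exact Or.inl rfl

omit hN2 in
/-- the supply from `c` and its children -/
lemma inflow {c : V} (hc : c ≠ r) :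
    ((G.degree c + 2 * ∑ w ∈ CH r p c, s w = 4 ∨ G.degree c + 2 * ∑ w ∈ CH r p c, s w = 5) →
      2 ≤ YY G r p d s c + ∑ v ∈ CH r p c, XX G r p d s v) ∧
    (G.degree c + 2 * ∑ w ∈ CH r p c, s w = 7 →
      1 ≤ YY G r p d s c + ∑ v ∈ CH r p c, XX G r p d s v) := by
  by_cases hl : CH r p c = ∅
  · have hy := YY_leaf G (d := d) (s := s) hl
    have h0 : ∑ w ∈ CH r p c, s w = 0 := by rw [hl]; rfl
    rw [h0, hy]
    constructor
    · rintro (h1 | h1) <;> omega
    · intro h1; omega
  · have hd2 := card_DN_lt G h hc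
    have hk := card_CH G h c
    have hk1 : 1 ≤ (CH r p c).card := by
      rw [Nat.one_le_iff_ne_zero, Ne, Finset.card_eq_zero]
      exact hl
    have hsum1 : ∀ v ∈ CH r p c, s v = 1 → 2 ≤ ∑ v ∈ CH r p c, XX G r p d s v := by
      intro v hv hs
      have h1 := Finset.single_le_sum (f := fun v => XX G r p d s v) (s := CH r p c)
        (fun _ _ => Nat.zero_le _) hv
      have h2 : XX G r p d s v = 2 := by
        unfold XX
        rw [if_pos hs]
      have h3 : XX G r p d s v ≤ ∑ v ∈ CH r p c, XX G r p d s v := h1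
      omega
    have hex : (∑ w ∈ CH r p c, s w) ≠ 0 → ∃ v ∈ CH r p c, s v ≠ 0 := by
      intro h1
      by_contra hcon
      push Not at hcon
      exact h1 (Finset.sum_eq_zero hcon)
    have hle : ∀ v ∈ CH r p c, s v ≤ ∑ w ∈ CH r p c, s w := fun v hv =>
      Finset.single_le_sum (f := s) (fun _ _ => Nat.zero_le _) hv
    by_cases h0 : (∑ w ∈ CH r p c, s w) = 0
    · have hy : 4 ≤ G.degree c → YY G r p d s c = 2 := by
        intro h4
        unfold YY
        rw [if_neg hl, if_pos ⟨h0, h4⟩]
      constructor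
      · rintro (h1 | h1) <;> (have := hy (by omega); omega)
      · intro h1
        have := hy (by omega)
        omega
    · obtain ⟨v, hv, hv0⟩ := hex h0
      have hvle := hle v hv
      by_cases hv1 : s v = 1
      · have := hsum1 v hv hv1
        constructor
        · intro _; omega
        · intro _; omega
      · constructor
        · rintro (h1 | h1) <;> omega
        · intro h1
          have hS2 : (∑ w ∈ CH r p c, s w) = 2 := by omega
          have hdeg : G.degree c = 3 := by omega
          have hv2 : s v = 2 := by omega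
          by_cases hk2 : (CH r p c).card = 1
          · by_cases ht : s c = (DN G d c).card + 1
            · have h3 : XX G r p d s v = 1 := by
                unfold XX
                have hpv : p v = c := (mem_CH.mp hv).2
                rw [if_neg hv1, if_pos ⟨hv2, by rw [hpv]; exact hk2, by rw [hpv]; exact hdeg,
                  by rw [hpv]; exact ht⟩]
              have h4 := Finset.single_le_sum (f := fun v => XX G r p d s v) (s := CH r p c)
                (fun _ _ => Nat.zero_le _) hv
              have h5 : XX G r p d s v ≤ ∑ v ∈ CH r p c, XX G r p d s v := h4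
              omega
            · have h3 : YY G r p d s c = 1 := by
                unfold YY
                rw [if_neg hl, if_neg (fun h => h0 h.1), if_pos ⟨hdeg, hS2, Or.inl ⟨hk2, ht⟩⟩]
              omega
          · have hk3 : (CH r p c).card = 2 := by omega
            have h3 : YY G r p d s c = 1 := by
              unfold YY
              rw [if_neg hl, if_neg (fun h => h0 h.1),
                if_pos ⟨hdeg, hS2, Or.inr ⟨hk3, v, hv, hv2⟩⟩]
            omega

omit hN2 in
lemma XX_odd {w : V} (hw : w ≠ r) (hX : XX G r p d s w ≠ 0) (hs : s w ≠ 1) :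
    XX G r p d s w = 1 ∧ s w = 2 ∧ G.degree w % 2 = 1 := by
  unfold XX at hX ⊢
  rw [if_neg hs] at hX ⊢
  by_cases hc : s w = 2 ∧ (CH r p (p w)).card = 1 ∧ G.degree (p w) = 3 ∧
      s (p w) = (DN G d (p w)).card + 1
  · rw [if_pos hc]
    refine ⟨rfl, hc.1, ?_⟩
    obtain ⟨h1, h2, h3, h4⟩ := hc
    have hbr : p w ≠ r := by
      intro hb
      rw [hb] at h4
      have := (hg r).1 (Or.inl rfl)
      omega
    have hwm : w ∈ CH r p (p w) := mem_CH.mpr ⟨hw, rfl⟩
    have hne : CH r p (p w) ≠ ∅ := by
      intro h5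
      rw [h5] at hwm
      simp at hwm
    obtain ⟨_, hb⟩ := block G (hg (p w)) hbr hne
    obtain ⟨ha, hda⟩ := h.2 w hw
    obtain ⟨j, hj1, hj2, hj3⟩ := hb h4 w ha.symm (by omega)
    have hsingle : CH r p (p w) = {w} := by
      rw [Finset.card_eq_one] at h2
      obtain ⟨a, ha2⟩ := h2
      rw [ha2] at hwm ⊢
      rw [Finset.mem_singleton] at hwm
      rw [hwm]
    rw [DD_eq G hw, DD_eq G hbr, hsingle, Finset.sum_singleton, h3] at hj3
    omega
  · rw [if_neg hc] at hX
    exact absurd rfl hX

theorem local_ineq {w : V} (hw : w ≠ r) :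
    XX G r p d s w + YY G r p d s w + 4 * s w + 1 ≤
      4 * (DN G d w).card + (CH r p w).card + G.degree w +
        ∑ c ∈ CH r p w, (YY G r p d s c + ∑ v ∈ CH r p c, XX G r p d s v) := by
  have hDd := card_DN_lt G h hw
  have hkD := card_CH G h w
  by_cases hl : CH r p w = ∅
  · have hs := s_leaf G hg hl
    have hX : XX G r p d s w = 0 := by
      unfold XX
      rw [if_neg (by omega), if_neg (by omega)]
    rw [hX, hs, YY_leaf G hl]
    omega
  · have hk1 : 1 ≤ (CH r p w).card := by
      rw [Nat.one_le_iff_ne_zero, Ne, Finset.card_eq_zero]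
      exact hl
    obtain ⟨hb1, hb2⟩ := block G (hg w) hw hl
    have hs1 := ((hg w).2 hw hl).1
    have hX2 := XX_le G (r := r) (p := p) (d := d) (s := s) w
    have hIn : ∀ c ∈ CH r p w, YY G r p d s c + ∑ v ∈ CH r p c, XX G r p d s v ≤
        ∑ c ∈ CH r p w, (YY G r p d s c + ∑ v ∈ CH r p c, XX G r p d s v) := fun c hc =>
      Finset.single_le_sum (f := fun c => YY G r p d s c + ∑ v ∈ CH r p c, XX G r p d s v)
        (fun _ _ => Nat.zero_le _) hc
    have hYc := YY_cases G (d := d) (s := s) hl
    -- a child with value zero which blocks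
    have hleafY : ∀ c ∈ CH r p w, s c = 0 → s w = (DN G d w).card + 1 → 3 ≤ G.degree w →
        4 ≤ G.degree w + 2 * ∑ x ∈ CH r p w, s x → 
        4 ≤ ∑ c ∈ CH r p w, (YY G r p d s c + ∑ v ∈ CH r p c, XX G r p d s v) := by
      intro c hc h0 ht h3 h4
      obtain ⟨hcr, hpc⟩ := mem_CH.mp hc
      obtain ⟨hadj, hdc⟩ := h.2 c hcr
      rw [hpc] at hadj hdc
      obtain ⟨j, hj1, hj2, hj3⟩ := hb2 ht c hadj.symm (by omega)
      have hcl := leaf_of_zero G hg hcr h0
      rw [DD_eq G hcr, DD_eq G hw, hcl, Finset.sum_empty, h0] at hj3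
      have hy := YY_leaf G (d := d) (s := s) hcl
      have := hIn c hc
      omega
    by_cases ht : s w = (DN G d w).card + 1
    · by_cases hk2 : 2 ≤ (CH r p w).card
      · have hX0 : XX G r p d s w = 0 := by
          unfold XX
          rw [if_neg (by omega), if_neg (by omega)]
        rcases hYc with hy | ⟨hy, hS, hdeg⟩ | ⟨hy, hdeg, hS, hor⟩
        · omega
        · obtain ⟨c, hc⟩ : (CH r p w).Nonempty := Finset.nonempty_iff_ne_empty.mpr hl
          have hc0 : s c = 0 := by
            have := Finset.single_le_sum (f := s) (fun _ _ => Nat.zero_le _) hc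
            omega
          have := hleafY c hc hc0 ht (by omega) (by omega)
          omega
        · rcases hor with ⟨h1, _⟩ | ⟨h1, c, hc, hc2⟩
          · omega
          · have hcard : ((CH r p w).erase c).card = 1 := by
              rw [Finset.card_erase_of_mem hc]
              omega
            rw [Finset.card_eq_one] at hcard
            obtain ⟨l, hl2⟩ := hcard
            have hlm : l ∈ (CH r p w).erase c := by rw [hl2]; simp
            have hsum := Finset.add_sum_erase (CH r p w) s hc
            rw [hl2, Finset.sum_singleton] at hsum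
            have := hleafY l (Finset.mem_of_mem_erase hlm) (by omega) ht (by omega) (by omega)
            omega
      · have hk : (CH r p w).card = 1 := by omega
        obtain ⟨c, hcs⟩ := Finset.card_eq_one.mp hk
        have hc : c ∈ CH r p w := by rw [hcs]; simp
        have hSw : ∑ x ∈ CH r p w, s x = s c := by rw [hcs]; simp
        obtain ⟨hcr, hpc⟩ := mem_CH.mp hc
        obtain ⟨hadj, hdc⟩ := h.2 c hcr
        rw [hpc] at hadj hdc
        obtain ⟨j, hj1, hj2, hj3⟩ := hb2 ht c hadj.symm (by omega)
        rw [DD_eq G hcr, DD_eq G hw, hSw] at hj3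
        have hkey : G.degree c + 2 * ∑ x ∈ CH r p c, s x = G.degree w + 2 * j := by omega
        have hInc := hIn c hc
        obtain ⟨hI1, hI2⟩ := inflow G h hg hcr
        have hXX : XX G r p d s w = 0 ∨
            (XX G r p d s w = 1 ∧ s w = 2 ∧ G.degree w % 2 = 1) := by
          by_cases hx : XX G r p d s w = 0
          · exact Or.inl hx
          · exact Or.inr (XX_odd G h hg hw hx (by omega))
        have hYY : YY G r p d s w = 0 ∨
            (YY G r p d s w = 2 ∧ s c = 0 ∧ 4 ≤ G.degree w) := by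
          rcases hYc with hy | ⟨hy, hS, hdeg⟩ | ⟨hy, hdeg, hS, hor⟩
          · exact Or.inl hy
          · exact Or.inr ⟨hy, by omega, hdeg⟩
          · rcases hor with ⟨_, h1⟩ | ⟨h1, _⟩
            · exact absurd ht h1
            · omega
        by_cases hd4 : 4 ≤ G.degree w
        · rcases hYY with hy | ⟨hy, hc0, _⟩
          · rcases hXX with hx | ⟨hx, _, hodd⟩
            · omega
            · omega
          · have := hleafY c hc hc0 ht (by omega) (by omega)
            rcases hXX with hx | ⟨hx, _, hodd⟩ <;> omega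
        · have hy0 : YY G r p d s w = 0 := by
            rcases hYY with hy | ⟨_, _, h4⟩
            · exact hy
            · omega
          by_cases hd3 : G.degree w = 3
          · by_cases hj : j = 1
            · have := hI1 (Or.inr (by omega))
              rcases hXX with hx | ⟨hx, _, _⟩ <;> omega
            · have := hI2 (by omega)
              rcases hXX with hx | ⟨hx, hs2, _⟩
              · omega
              · omega
          · have := hI1 (Or.inl (by omega))
            rcases hXX with hx | ⟨hx, _, hodd⟩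
            · omega
            · omega
    · rcases hYc with hy | ⟨hy, hS, hdeg⟩ | ⟨hy, hdeg, hS, hor⟩ <;> omega

end

end Pool.Agent.V8H67.IW
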