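import Pool.Agent.V8H67.IW.Glob

/-!
# The bound for all connected graphs
-/

namespace Pool.Agent.V8H67.IW

open SimpleGraph Pool.Agent.Helper6W

variable {V : Type} [Fintype V] [DecidableEq V]

lemma child_not_leaf (G : SimpleGraph V) [DecidableRel G.Adj] {r : V} {p : V → V} {d : V → ℕ}
    (hc : G.Connected) (h3 : 3 ≤ Fintype.card V)
    (hmin : ∀ v, G.degree r ≤ G.degree v)
    (h : IsTree G r p d) (hN1 : ∀ x y, G.Adj x y → d x ≠ d y)
    (hN2 : ∀ x y, G.Adj x y → d x < d y → (CH r p x).Nonempty) {c : V} (hcr : c ∈ CH r p r) :
    CH r p c ≠ ∅ := by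
  intro hl
  obtain ⟨hc1, hc2⟩ := mem_CH.mp hcr
  obtain ⟨hadj, hdc⟩ := h.2 c hc1
  rw [hc2] at hadj hdc
  rw [h.1] at hdc
  have hDN := DN_leaf G hN2 hl
  have hnb : ∀ x, G.Adj c x → x = r := by
    intro x hx
    have h1 := hN1 c x hx
    have h2 : ¬ d c < d x := by
      intro h4
      have : x ∈ DN G d c := mem_DN.mpr ⟨hx, h4⟩
      rw [hDN] at this
      simp at this
    exact eq_root h (by omega)
  have hdegc : G.degree c ≤ 1 := by
    rw [← G.card_neighborFinset_eq_degree]
    have : G.neighborFinset c ⊆ {r} := by
      intro x hx
      rw [Finset.mem_singleton]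
      exact hnb x (by simpa using hx)
    calc (G.neighborFinset c).card ≤ ({r} : Finset V).card := Finset.card_le_card this
      _ = 1 := Finset.card_singleton r
  have hdegr : G.degree r ≤ 1 := (hmin c).trans hdegc
  have hnbr : ∀ x, G.Adj r x → x = c := by
    intro x hx
    rw [← G.card_neighborFinset_eq_degree] at hdegr
    exact Finset.card_le_one.mp hdegr x (by simpa using hx) c (by simpa using hadj.symm)
  have hall : ∀ v, v = r ∨ v = c := by
    intro v
    refine conn_closed hc (fun v => v = r ∨ v = c) (a := r) (Or.inl rfl) ?_ v
    rintro u v (rfl | rfl) huv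
    · right
      exact hnbr v huv
    · left
      exact hnb v huv
  have h4 : Fintype.card V ≤ 2 := by
    have : (Finset.univ : Finset V) ⊆ {r, c} := by
      intro v _
      rcases hall v with h | h <;> simp [h]
    calc Fintype.card V = (Finset.univ : Finset V).card := rfl
      _ ≤ ({r, c} : Finset V).card := Finset.card_le_card this
      _ ≤ 2 := Finset.card_le_two
  omega

/-- Every connected graph with at least three vertices and `m` edges has a closed irregularising
walk of length at most `3 m`. -/
theorem main (G : SimpleGraph V) [DecidableRel G.Adj] (hc : G.Connected)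
    (h3 : 3 ≤ Fintype.card V) :
    ∃ (x : V) (w : G.Walk x x), Irregularising G w ∧ w.length ≤ 3 * G.edgeFinset.card := by
  classical
  have hnt : Nontrivial V := Fintype.one_lt_card_iff_nontrivial.mp (by omega)
  obtain ⟨r, _, hmin'⟩ := Finset.exists_min_image (Finset.univ : Finset V)
    (fun v => G.degree v) Finset.univ_nonempty
  have hmin : ∀ v, G.degree r ≤ G.degree v := fun v => hmin' v (Finset.mem_univ v)
  obtain ⟨p, d, h, hN1, hN2⟩ := exists_dfs hc r
  obtain ⟨s, hg⟩ := exists_greedy G h
  obtain ⟨a, hra⟩ := hc.preconnected.exists_adj_of_nontrivial r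
  have hda : d r < d a := by
    have := hN1 r a hra
    rw [h.1] at this ⊢
    omega
  obtain ⟨q, hq⟩ := hN2 r a hra hda
  have hqn := child_not_leaf G hc h3 hmin h hN1 hN2 hq
  obtain ⟨hqr, hpq⟩ := mem_CH.mp hq
  have hqd : d q = 1 := by
    have := (h.2 q hqr).2
    rw [hpq, h.1] at this
    omega
  have hnotr : ∀ x y, d x < d y → y ≠ r := by
    rintro x y hxy rfl
    rw [h.1] at hxy
    omega
  have haG : ∀ x y, G.Adj x y → d x < d y → x ≠ r → DD G r p s x ≠ DD G r p s y := by
    intro x y hxy hlt hxr
    have hne : CH r p x ≠ ∅ := Finset.nonempty_iff_ne_empty.mp (hN2 x y hxy hlt)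
    exact (((hg x).2 hxr hne).2.1 y hxy hlt).symm
  have hcG : ∀ u, u ≠ r → CH r p u ≠ ∅ → 0 < s u := by
    intro u h1 h2
    exact ((hg u).2 h1 h2).1
  have hkr : 1 ≤ (CH r p r).card := Finset.card_pos.mpr ⟨q, hq⟩
  have hdr : 1 ≤ G.degree r := by
    rw [← G.card_neighborFinset_eq_degree]
    exact Finset.card_pos.mpr ⟨a, by simpa using hra⟩
  refine ⟨r, ?_⟩
  by_cases hA : ∃ q' ∈ CH r p r, q' ≠ q
  · obtain ⟨q', hq', hne⟩ := hA
    have hqn' := child_not_leaf G hc h3 hmin h hN1 hN2 hq'
    obtain ⟨hqr', hpq'⟩ := mem_CH.mp hq'
    have hqd' : d q' = 1 := by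
      have := (h.2 q' hqr').2
      rw [hpq', h.1] at this
      omega
    have hpqq : p q' ≠ q' := by rw [hpq']; exact hqr'.symm
    set b' := G.degree q' + 2 * ∑ w ∈ CH r p q', s w with hb'
    set base := G.degree r + 2 * ∑ w ∈ ((CH r p r).erase q).erase q', s w with hbase
    set targ := G.degree q + 2 * ∑ w ∈ CH r p q, s w with htarg
    obtain ⟨j, hj1, hj2, hj3⟩ := pick ((DN G d q').image (fun x => (DD G r p s x - b') / 2) ∪
      {(targ - base) / 2})
    have hcard : ((DN G d q').image (fun x => (DD G r p s x - b') / 2) ∪
      {(targ - base) / 2}).card ≤ (DN G d q').card + 1 := by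
      refine (Finset.card_union_le _ _).trans ?_
      have e1 := Finset.card_image_le (s := DN G d q') (f := fun x => (DD G r p s x - b') / 2)
      rw [Finset.card_singleton]
      omega
    have hD' : DD G r p (Function.update s q' j) q' = b' + 2 * j :=
      DD_update_self G r p s j hqr' hpqq
    have hDo : ∀ v, v ≠ q' → v ≠ r → DD G r p (Function.update s q' j) v = DD G r p s v := by
      intro v h1 h2
      exact DD_update_ne G r p s j h1 (by rw [hpq']; exact h2.symm)
    refine finish G h hN1 hq hqn (Function.update s q' j) ?_ ?_ ?_ ?_
    · intro x y hxy hlt hxr hxq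
      have hyr := hnotr x y hlt
      have hyq : y ≠ q' := by
        rintro rfl
        exact hxr (eq_root h (by omega))
      by_cases hxq' : x = q'
      · subst hxq'
        rw [hD', hDo y hyq hyr]
        intro h1
        apply hj3
        refine Finset.mem_union_left _ ?_
        rw [Finset.mem_image]
        refine ⟨y, mem_DN.mpr ⟨hxy, hlt⟩, ?_⟩
        rw [← h1]
        omega
      · rw [hDo x hxq' hxr, hDo y hyq hyr]
        exact haG x y hxy hlt hxr
    · have hm : q' ∈ (CH r p r).erase q := Finset.mem_erase.mpr ⟨hne, hq'⟩
      have e1 : ∑ c ∈ (CH r p r).erase q, Function.update s q' j c =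
          j + ∑ w ∈ ((CH r p r).erase q).erase q', s w := by
        rw [← Finset.add_sum_erase _ _ hm, Function.update_self]
        congr 1
        refine Finset.sum_congr rfl ?_
        intro x hx
        rw [Function.update_of_ne (Finset.ne_of_mem_erase hx)]
      have e2 : ∑ c ∈ CH r p q, Function.update s q' j c = ∑ c ∈ CH r p q, s c := by
        refine Finset.sum_congr rfl ?_
        intro x hx
        rw [Function.update_of_ne]
        rintro rfl
        exact hqr ((mem_CH.mp hx).2.symm.trans hpq')
      rw [e1, e2]
      intro h1
      apply hj3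
      refine Finset.mem_union_right _ ?_
      rw [Finset.mem_singleton, htarg, hbase]
      omega
    · intro u h1 h2 h4
      by_cases h5 : u = q'
      · rw [h5, Function.update_self]
        omega
      · rw [Function.update_of_ne h5]
        exact hcG u h1 h4
    · have hm : q' ∈ (Finset.univ.erase r).erase q :=
        Finset.mem_erase.mpr ⟨hne, Finset.mem_erase.mpr ⟨hqr', Finset.mem_univ _⟩⟩
      have e1 : ∑ v ∈ (Finset.univ.erase r).erase q, (4 * Function.update s q' j v + 1) =
          (4 * j + 1) + ∑ v ∈ ((Finset.univ.erase r).erase q).erase q', (4 * s v + 1) := by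
        rw [← Finset.add_sum_erase _ _ hm, Function.update_self]
        congr 1
        refine Finset.sum_congr rfl ?_
        intro x hx
        rw [Function.update_of_ne (Finset.ne_of_mem_erase hx)]
      have e2 : ∑ v ∈ (Finset.univ.erase r).erase q, bud G r p d v =
          bud G r p d q' + ∑ v ∈ ((Finset.univ.erase r).erase q).erase q', bud G r p d v :=
        (Finset.add_sum_erase _ _ hm).symm
      have e3 := sum_W G h hN2 hg (((Finset.univ.erase r).erase q).erase q')
        (by simp) (by
          intro w hw c hcw
          obtain ⟨k1, k2⟩ := mem_CH.mp hcw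
          have hwr : w ≠ r :=
            Finset.ne_of_mem_erase (Finset.mem_of_mem_erase (Finset.mem_of_mem_erase hw))
          refine Finset.mem_erase.mpr ⟨?_, Finset.mem_erase.mpr ⟨?_,
            Finset.mem_erase.mpr ⟨k1, Finset.mem_univ _⟩⟩⟩
          · rintro rfl
            exact hwr (k2.symm.trans hpq')
          · rintro rfl
            exact hwr (k2.symm.trans hpq))
      have e4 : 4 * (DN G d q').card + 3 ≤ bud G r p d q' := by
        unfold bud
        have f1 := card_DN_lt G h hqr'
        have f3 : 1 ≤ (CH r p q').card := by
          rw [Nat.one_le_iff_ne_zero, Ne, Finset.card_eq_zero]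
          exact hqn'
        have f2 := card_CH G h q'
        omega
      have e5 : 2 ≤ (CH r p r).card := by
        have : ({q, q'} : Finset V) ⊆ CH r p r := by
          intro x hx
          rw [Finset.mem_insert, Finset.mem_singleton] at hx
          rcases hx with rfl | rfl
          · exact hq
          · exact hq'
        have h6 := Finset.card_le_card this
        rw [Finset.card_pair hne.symm] at h6
        exact h6
      have e6 : (CH r p r).card ≤ G.degree r := by
        rw [← G.card_neighborFinset_eq_degree]
        refine Finset.card_le_card ?_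
        intro x hx
        have := (mem_DN.mp (CH_sub G h r hx)).1
        simpa using this
      omega
  · push Not at hA
    have hE : (CH r p r).erase q = ∅ := by
      rw [Finset.eq_empty_iff_forall_notMem]
      intro x hx
      exact (Finset.ne_of_mem_erase hx) (hA x (Finset.mem_of_mem_erase hx))
    by_cases hconf : G.degree r = G.degree q + 2 * ∑ c ∈ CH r p q, s c
    · have hS0 : ∑ c ∈ CH r p q, s c = 0 := by
        have := hmin q
        omega
      obtain ⟨l, hl⟩ := Finset.nonempty_iff_ne_empty.mpr hqn
      obtain ⟨hlr, hpl⟩ := mem_CH.mp hl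
      have hsl : s l = 0 := by
        have := Finset.single_le_sum (f := s) (fun _ _ => Nat.zero_le _) hl
        omega
      have hll := leaf_of_zero G hg hlr hsl
      have hDl := DN_leaf G hN2 hll
      have hld : d l = 2 := by
        have := (h.2 l hlr).2
        rw [hpl, hqd] at this
        omega
      have hlq : l ≠ q := by
        rintro rfl
        omega
      have hDo : ∀ v, v ≠ l → v ≠ q → DD G r p (Function.update s l 1) v = DD G r p s v := by
        intro v h1 h2
        exact DD_update_ne G r p s 1 h1 (by rw [hpl]; exact h2.symm)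
      refine finish G h hN1 hq hqn (Function.update s l 1) ?_ ?_ ?_ ?_
      · intro x y hxy hlt hxr hxq
        have hxl : x ≠ l := by
          rintro rfl
          have : y ∈ DN G d x := mem_DN.mpr ⟨hxy, hlt⟩
          rw [hDl] at this
          simp at this
        have hyq : y ≠ q := by
          rintro rfl
          exact hxr (eq_root h (by omega))
        have hyl : y ≠ l := by
          rintro rfl
          have h1 : d x = 0 ∨ d x = 1 := by omega
          rcases h1 with h1 | h1
          · exact hxr (eq_root h h1)
          · have h2 := (h.2 x hxr).2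
            have h4 : p x = r := eq_root h (by omega)
            exact hxq (hA x (mem_CH.mpr ⟨hxr, h4⟩))
        rw [hDo x hxl hxq, hDo y hyl hyq]
        exact haG x y hxy hlt hxr
      · rw [hE, Finset.sum_empty]
        have h1 := Finset.single_le_sum (f := Function.update s l 1)
          (fun _ _ => Nat.zero_le _) hl
        rw [Function.update_self] at h1
        omega
      · intro u h1 h2 h4
        have h5 : u ≠ l := by
          rintro rfl
          exact h4 hll
        rw [Function.update_of_ne h5]
        exact hcG u h1 h4
      · have hm : l ∈ (Finset.univ.erase r).erase q :=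
          Finset.mem_erase.mpr ⟨hlq, Finset.mem_erase.mpr ⟨hlr, Finset.mem_univ _⟩⟩
        have e1 : ∑ v ∈ (Finset.univ.erase r).erase q, (4 * Function.update s l 1 v + 1) =
            (4 * 1 + 1) + ∑ v ∈ ((Finset.univ.erase r).erase q).erase l, (4 * s v + 1) := by
          rw [← Finset.add_sum_erase _ _ hm, Function.update_self]
          congr 1
          refine Finset.sum_congr rfl ?_
          intro x hx
          rw [Function.update_of_ne (Finset.ne_of_mem_erase hx)]
        have e2 : ∑ v ∈ (Finset.univ.erase r).erase q, bud G r p d v =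
            bud G r p d l + ∑ v ∈ ((Finset.univ.erase r).erase q).erase l, bud G r p d v :=
          (Finset.add_sum_erase _ _ hm).symm
        have e3 := sum_W G h hN2 hg (((Finset.univ.erase r).erase q).erase l)
          (by simp) (by
            intro w hw c hcw
            obtain ⟨k1, k2⟩ := mem_CH.mp hcw
            have hwr : w ≠ r :=
              Finset.ne_of_mem_erase (Finset.mem_of_mem_erase (Finset.mem_of_mem_erase hw))
            have hwq : w ≠ q := Finset.ne_of_mem_erase (Finset.mem_of_mem_erase hw)
            refine Finset.mem_erase.mpr ⟨?_, Finset.mem_erase.mpr ⟨?_,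
              Finset.mem_erase.mpr ⟨k1, Finset.mem_univ _⟩⟩⟩
            · rintro rfl
              exact hwq (k2.symm.trans hpl)
            · rintro rfl
              exact hwr (k2.symm.trans hpq))
        have e4 : 1 ≤ bud G r p d l := by
          unfold bud
          have := card_DN_lt G h hlr
          omega
        omega
    · refine finish G h hN1 hq hqn s ?_ ?_ ?_ ?_
      · intro x y hxy hlt hxr _
        exact haG x y hxy hlt hxr
      · rw [hE, Finset.sum_empty]
        omega
      · intro u h1 _ h4
        exact hcG u h1 h4
      · have e3 := sum_W G h hN2 hg ((Finset.univ.erase r).erase q)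
          (by simp) (by
            intro w hw c hcw
            obtain ⟨k1, k2⟩ := mem_CH.mp hcw
            have hwr : w ≠ r := Finset.ne_of_mem_erase (Finset.mem_of_mem_erase hw)
            refine Finset.mem_erase.mpr ⟨?_, Finset.mem_erase.mpr ⟨k1, Finset.mem_univ _⟩⟩
            rintro rfl
            exact hwr (k2.symm.trans hpq))
        omega

end Pool.Agent.V8H67.IW
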