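import Pool.Agent.Helper6W.Greedy

/-!
# Depth-first trees

A rooted spanning tree is given by the parent function `p` and the depth function `d`. A tree with
the largest possible sum of the depths has the two properties of a depth-first tree used here:
adjacent vertices have different depths, and a vertex with a deeper neighbour has a child.
-/

namespace Pool.Agent.V8H67.IW

open SimpleGraph Pool.Agent.Helper6W

variable {V : Type} [Fintype V] [DecidableEq V]

/-- `p` and `d` are the parent function and the depth function of a spanning tree rooted at `r`. -/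
def IsTree (G : SimpleGraph V) (r : V) (p : V → V) (d : V → ℕ) : Prop :=
  d r = 0 ∧ ∀ v, v ≠ r → G.Adj v (p v) ∧ d v = d (p v) + 1

variable {G : SimpleGraph V} {r : V} {p : V → V} {d : V → ℕ}

omit [Fintype V] [DecidableEq V] in
lemma eq_root (h : IsTree G r p d) {v : V} (hv : d v = 0) : v = r := by
  by_contra hne
  have := (h.2 v hne).2
  omega

omit [Fintype V] [DecidableEq V] in
lemma depth_iter (h : IsTree G r p d) (v : V) : ∀ j, j ≤ d v → d (p^[j] v) = d v - j := by
  intro j
  induction j with
  | zero => intro _; simp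
  | succ j ih =>
    intro hj
    have h1 := ih (by omega)
    have h2 : p^[j] v ≠ r := by
      intro h3
      rw [h3, h.1] at h1
      omega
    rw [Function.iterate_succ_apply']
    have := (h.2 _ h2).2
    omega

omit [DecidableEq V] in
lemma depth_lt (h : IsTree G r p d) (v : V) : d v < Fintype.card V := by
  have hinj : Function.Injective (fun j : Fin (d v + 1) => p^[(j : ℕ)] v) := by
    intro a b hab
    have h1 := depth_iter h v a (by omega)
    have h2 := depth_iter h v b (by omega)
    have hab' : p^[(a : ℕ)] v = p^[(b : ℕ)] v := hab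
    rw [hab'] at h1
    apply Fin.ext
    omega
  have := Fintype.card_le_of_injective _ hinj
  simp at this
  omega

/-- `x` is an ancestor of `v` or equal to `v`. -/
def Anc (p : V → V) (d : V → ℕ) (x v : V) : Prop := d x ≤ d v ∧ p^[d v - d x] v = x

omit [Fintype V] [DecidableEq V] in
lemma anc_self (x : V) : Anc p d x x := by
  refine ⟨le_rfl, ?_⟩
  simp

omit [Fintype V] [DecidableEq V] in
lemma anc_root (h : IsTree G r p d) (v : V) : Anc p d r v := by
  refine ⟨by rw [h.1]; omega, ?_⟩
  apply eq_root h
  rw [depth_iter h v _ (by omega), h.1]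
  omega

omit [Fintype V] [DecidableEq V] in
lemma anc_par (h : IsTree G r p d) {x v : V} (hvr : v ≠ r) (hvx : v ≠ x) :
    Anc p d x v ↔ Anc p d x (p v) := by
  have hd := (h.2 v hvr).2
  unfold Anc
  constructor
  · rintro ⟨h1, h2⟩
    by_cases h3 : d x = d v
    · rw [h3] at h2
      simp at h2
      exact absurd h2 hvx
    · refine ⟨by omega, ?_⟩
      have : d v - d x = (d (p v) - d x) + 1 := by omega
      rw [this, Function.iterate_succ_apply] at h2
      exact h2
  · rintro ⟨h1, h2⟩
    refine ⟨by omega, ?_⟩
    have : d v - d x = (d (p v) - d x) + 1 := by omega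
    rw [this, Function.iterate_succ_apply]
    exact h2

open Classical in
lemma rehang (h : IsTree G r p d) {x y : V} (hxy : G.Adj x y) (hle : d x ≤ d y)
    (hna : ¬ Anc p d x y) :
    ∃ (p' : V → V) (d' : V → ℕ), IsTree G r p' d' ∧ ∑ v, d v < ∑ v, d' v := by
  have hxr : x ≠ r := by
    rintro rfl
    exact hna (anc_root h y)
  have hnr : ¬ Anc p d x r := by
    rintro ⟨h1, _⟩
    rw [h.1] at h1
    exact hxr (eq_root h (by omega))
  refine ⟨Function.update p x y,
    fun v => if Anc p d x v then d v + (d y + 1 - d x) else d v, ⟨?_, ?_⟩, ?_⟩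
  · show (if Anc p d x r then _ else _) = 0
    rw [if_neg hnr, h.1]
  · intro v hv
    by_cases hvx : v = x
    · subst hvx
      rw [Function.update_self]
      refine ⟨hxy, ?_⟩
      show (if Anc p d v v then _ else _) = (if Anc p d v y then _ else _) + 1
      rw [if_pos (anc_self v), if_neg hna]
      omega
    · rw [Function.update_of_ne hvx]
      obtain ⟨h1, h2⟩ := h.2 v hv
      refine ⟨h1, ?_⟩
      show (if Anc p d x v then _ else _) = (if Anc p d x (p v) then _ else _) + 1
      by_cases h3 : Anc p d x v
      · rw [if_pos h3, if_pos ((anc_par h hv hvx).mp h3)]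
        omega
      · rw [if_neg h3, if_neg (fun h4 => h3 ((anc_par h hv hvx).mpr h4))]
        omega
  · refine Finset.sum_lt_sum ?_ ⟨x, Finset.mem_univ x, ?_⟩
    · intro v _
      show d v ≤ (if Anc p d x v then _ else _)
      split_ifs <;> omega
    · show d x < (if Anc p d x x then _ else _)
      rw [if_pos (anc_self x)]
      omega

/-- The children of `v`. -/
def CH (r : V) (p : V → V) (v : V) : Finset V := Finset.univ.filter fun w => w ≠ r ∧ p w = v

lemma mem_CH {v w : V} : w ∈ CH r p v ↔ w ≠ r ∧ p w = v := by
  unfold CH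
  simp

/-- Existence of a depth-first tree. -/
theorem exists_dfs (hc : G.Connected) (r : V) :
    ∃ (p : V → V) (d : V → ℕ), IsTree G r p d ∧ (∀ x y, G.Adj x y → d x ≠ d y) ∧
      (∀ x y, G.Adj x y → d x < d y → (CH r p x).Nonempty) := by
  classical
  have hex : ∃ (p : V → V) (d : V → ℕ), IsTree G r p d := by
    have hp : ∀ v, ∃ u, v ≠ r → G.Adj v u ∧ G.dist v r = G.dist u r + 1 := by
      intro v
      by_cases hv : v = r
      · exact ⟨v, fun h => absurd hv h⟩
      · obtain ⟨w, hw⟩ := hc.exists_walk_length_eq_dist v r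
        cases w with
        | nil => exact absurd rfl hv
        | cons h q =>
          rename_i u
          refine ⟨u, fun _ => ⟨h, ?_⟩⟩
          rw [Walk.length_cons] at hw
          have h1 : G.dist u r ≤ q.length := SimpleGraph.dist_le q
          have h2 : G.dist v r ≤ G.dist v u + G.dist u r := hc.dist_triangle
          have h3 : G.dist v u = 1 := SimpleGraph.dist_eq_one_iff_adj.mpr h
          omega
    choose p hp using hp
    exact ⟨p, fun v => G.dist v r, SimpleGraph.dist_self, fun v hv => hp v hv⟩
  set P : Set ℕ := {N | ∃ (p : V → V) (d : V → ℕ), IsTree G r p d ∧ ∑ v, d v = N} with hP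
  have hne : P.Nonempty := by
    obtain ⟨p, d, h⟩ := hex
    exact ⟨_, p, d, h, rfl⟩
  have hbd : BddAbove P := by
    refine ⟨Fintype.card V * Fintype.card V, ?_⟩
    rintro N ⟨p, d, h, rfl⟩
    calc ∑ v, d v ≤ ∑ _v : V, Fintype.card V :=
          Finset.sum_le_sum (fun v _ => (depth_lt h v).le)
      _ = Fintype.card V * Fintype.card V := by simp
  obtain ⟨p, d, h, hN⟩ := Nat.sSup_mem hne hbd
  have hmax : ∀ (p' : V → V) (d' : V → ℕ), IsTree G r p' d' → ∑ v, d' v ≤ ∑ v, d v := by
    intro p' d' h'
    rw [hN]
    exact le_csSup hbd ⟨p', d', h', rfl⟩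
  have hno : ∀ x y, G.Adj x y → d x ≤ d y → Anc p d x y := by
    intro x y hxy hle
    by_contra hna
    obtain ⟨p', d', h1, h2⟩ := rehang h hxy hle hna
    have := hmax p' d' h1
    omega
  refine ⟨p, d, h, ?_, ?_⟩
  · intro x y hxy heq
    have h1 := (hno x y hxy heq.le).2
    rw [heq] at h1
    simp at h1
    exact hxy.ne h1.symm
  · intro x y hxy hlt
    obtain ⟨_, h1⟩ := hno x y hxy hlt.le
    have h2 : d y - d x = (d y - d x - 1) + 1 := by omega
    rw [h2, Function.iterate_succ_apply'] at h1
    refine ⟨p^[d y - d x - 1] y, mem_CH.mpr ⟨?_, h1⟩⟩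
    intro h3
    have h4 := depth_iter h y (d y - d x - 1) (by omega)
    rw [h3, h.1] at h4
    omega

end Pool.Agent.V8H67.IW
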